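import Pool.Agent.Lib.KV.Final

/-!
# MP_64edc4_ag: bounded semialgebraic domains with compact quotients (Q1, full answer: yes)

Let `V ⊆ ℂᴺ` be the zero set of a set of polynomials and `U ⊆ V` a connected bounded semialgebraic
set, open in `V`, near each point of which `V` is a complex submanifold. If a group `Γ` acts on `U` by
holomorphic maps, properly discontinuously and with compact quotient, then `U` is biholomorphic to a
bounded symmetric domain.

The definitions are in `Pool.Agent.Lib.KP.Defs` (`zeroSet`, `SemiAlg`, `SmoothAt`, `HolOn`, `Biholo`,
`IsBSD`).

The proof (`Pool.Agent.Lib.KV`, outline in `Pool/Agent/Lib/KV/TEXT.md`): the set of the strictly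
pseudoconvex support points of the boundary (in an algebraic chart) is semialgebraic and near a generic
point a generic real analytic submanifold `Im w = h`; nearby `U` lies in an acute wedge; Bishop discs with
boundary on a semialgebraic section and the tautness of `U` (from the compact quotient) show that `U`
contains a full wedge; scaling at a generic point identifies `U` with a Siegel domain of the second kind;
the complete holomorphic vector fields of a Siegel domain are polynomial of degree at most two and, for a
domain with a properly discontinuous cocompact group, form a unimodular Lie algebra, which forces the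
quadratic fields to exist (theorem of Vey) and gives the symmetries.
-/

set_option autoImplicit false

open Set Filter Topology Metric

namespace Pool.Agent.Results.MP_64edc4_ag.BoundedSymmetric

open KP

universe u

theorem result (N : ℕ) (I : Set (MvPolynomial (Fin N) ℂ)) (U : Set (Cn N))
    (hopen : ∃ O : Set (Cn N), IsOpen O ∧ U = zeroSet I ∩ O) (hconn : IsConnected U)
    (hbdd : Bornology.IsBounded U) (hsemi : SemiAlg U)
    (hreg : ∀ z ∈ U, ∃ n, SmoothAt (zeroSet I) n z)
    (Γ : Type u) [Group Γ] [MulAction Γ U]
    (hhol : ∀ γ : Γ, ∃ f : Cn N → Cn N, HolOn f U ∧ ∀ u : U, f u = ((γ • u : U) : Cn N))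
    (hpd : ∀ Q : Set U, IsCompact Q → {γ : Γ | ((fun u => γ • u) '' Q ∩ Q).Nonempty}.Finite)
    (hcpt : CompactSpace (Quotient (MulAction.orbitRel Γ U))) :
    ∃ (n : ℕ) (D : Set (Cn n)), (∀ z ∈ U, SmoothAt (zeroSet I) n z) ∧ IsBSD D ∧ Biholo U D :=
  KV.main_univ KVAll.main N I U hopen hconn hbdd hsemi hreg Γ hhol hpd hcpt

end Pool.Agent.Results.MP_64edc4_ag.BoundedSymmetric
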